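import Pool.Agent.R481.TT.Defs

/-! # The algebraic core of the lower bound -/

set_option autoImplicit false

namespace Pool.Agent.R481.TT

variable {K : Type*} [Field K]

theorem line (D : K) (hD : ∀ u v : K, u ^ 2 - D * v ^ 2 = 0 → u = 0 ∧ v = 0)
    (x1 y1 x2 y2 x3 y3 a1 a2 a3 s t b : K)
    (H1 : (x1 + s) ^ 2 - D * (y1 + t) ^ 2 = a1 * b)
    (H2 : (x2 + s) ^ 2 - D * (y2 + t) ^ 2 = a2 * b)
    (H3 : (x3 + s) ^ 2 - D * (y3 + t) ^ 2 = a3 * b)
    (c1 : (y2 - y1) * (a3 - a1) = (a2 - a1) * (y3 - y1))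
    (c2 : (x2 - x1) * (a3 - a1) = (a2 - a1) * (x3 - x1))
    (c3 : (x2 - x1) * (y3 - y1) = (y2 - y1) * (x3 - x1))
    (h12 : ¬ (x1 = x2 ∧ y1 = y2)) (h13 : ¬ (x1 = x3 ∧ y1 = y3))
    (h23 : ¬ (x2 = x3 ∧ y2 = y3)) : False := by
  obtain ⟨σ, s1, s2, s3⟩ : ∃ σ : K, x3 - x1 = σ * (x2 - x1) ∧ y3 - y1 = σ * (y2 - y1) ∧
      a3 - a1 = σ * (a2 - a1) := by
    by_cases hx : x2 - x1 = 0
    · have hy : y2 - y1 ≠ 0 := by
        intro hy
        exact h12 ⟨(sub_eq_zero.1 hx).symm, (sub_eq_zero.1 hy).symm⟩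
      refine ⟨(y3 - y1) / (y2 - y1), ?_, ?_, ?_⟩
      · rw [div_mul_eq_mul_div, eq_div_iff hy]
        linear_combination -c3
      · rw [div_mul_cancel₀ _ hy]
      · rw [div_mul_eq_mul_div, eq_div_iff hy]
        linear_combination c1
    · refine ⟨(x3 - x1) / (x2 - x1), ?_, ?_, ?_⟩
      · rw [div_mul_cancel₀ _ hx]
      · rw [div_mul_eq_mul_div, eq_div_iff hx]
        linear_combination c3
      · rw [div_mul_eq_mul_div, eq_div_iff hx]
        linear_combination c2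
  have e1 : x3 = x1 + σ * (x2 - x1) := by linear_combination s1
  have e2 : y3 = y1 + σ * (y2 - y1) := by linear_combination s2
  have e3 : a3 = a1 + σ * (a2 - a1) := by linear_combination s3
  have key : (σ * (σ - 1)) * ((x2 - x1) ^ 2 - D * (y2 - y1) ^ 2) = 0 := by
    rw [e1, e2, e3] at H3
    linear_combination H3 - H1 - σ * (H2 - H1)
  rcases mul_eq_zero.1 key with h | h
  · rcases mul_eq_zero.1 h with h | h
    · rw [h] at e1 e2
      exact h13 ⟨by rw [e1]; ring, by rw [e2]; ring⟩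
    · have hσ : σ = 1 := sub_eq_zero.1 h
      rw [hσ] at e1 e2
      exact h23 ⟨by rw [e1]; ring, by rw [e2]; ring⟩
  · obtain ⟨h1, h2⟩ := hD _ _ h
    exact h12 ⟨(sub_eq_zero.1 h1).symm, (sub_eq_zero.1 h2).symm⟩

theorem cross (p1 p2 p3 q1 q2 q3 v1 v2 v3 w1 w2 w3 : K)
    (hpv : p1 * v1 + p2 * v2 + p3 * v3 = 0) (hpw : p1 * w1 + p2 * w2 + p3 * w3 = 0)
    (hqv : q1 * v1 + q2 * v2 + q3 * v3 = 0) (hqw : q1 * w1 + q2 * w2 + q3 * w3 = 0) :
    (p2 * q3 - p3 * q2 = 0 ∧ p3 * q1 - p1 * q3 = 0 ∧ p1 * q2 - p2 * q1 = 0) ∨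
    (v2 * w3 - v3 * w2 = 0 ∧ v3 * w1 - v1 * w3 = 0 ∧ v1 * w2 - v2 * w1 = 0) := by
  obtain ⟨c1, h1⟩ : ∃ c, c = p2 * q3 - p3 * q2 := ⟨_, rfl⟩
  obtain ⟨c2, h2⟩ : ∃ c, c = p3 * q1 - p1 * q3 := ⟨_, rfl⟩
  obtain ⟨c3, h3⟩ : ∃ c, c = p1 * q2 - p2 * q1 := ⟨_, rfl⟩
  have a1 : v2 * c3 - v3 * c2 = 0 := by
    rw [h2, h3]; linear_combination p1 * hqv - q1 * hpv
  have a2 : v3 * c1 - v1 * c3 = 0 := by
    rw [h1, h3]; linear_combination p2 * hqv - q2 * hpv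
  have a3 : v1 * c2 - v2 * c1 = 0 := by
    rw [h1, h2]; linear_combination p3 * hqv - q3 * hpv
  have b1 : w2 * c3 - w3 * c2 = 0 := by
    rw [h2, h3]; linear_combination p1 * hqw - q1 * hpw
  have b2 : w3 * c1 - w1 * c3 = 0 := by
    rw [h1, h3]; linear_combination p2 * hqw - q2 * hpw
  have b3 : w1 * c2 - w2 * c1 = 0 := by
    rw [h1, h2]; linear_combination p3 * hqw - q3 * hpw
  rw [← h1, ← h2, ← h3]
  by_cases z1 : c1 = 0
  · by_cases z2 : c2 = 0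
    · by_cases z3 : c3 = 0
      · exact Or.inl ⟨z1, z2, z3⟩
      · right
        refine ⟨?_, ?_, ?_⟩ <;> apply (mul_eq_zero.1 ?_).resolve_left z3
        · linear_combination w3 * a1 - v3 * b1
        · linear_combination w3 * a2 - v3 * b2
        · linear_combination (-v3) * b3 - w2 * a2 - w1 * a1
    · right
      refine ⟨?_, ?_, ?_⟩ <;> apply (mul_eq_zero.1 ?_).resolve_left z2
      · linear_combination w2 * a1 - v2 * b1
      · linear_combination (-v2) * b2 - w1 * a1 - w3 * a3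
      · linear_combination w2 * a3 - v2 * b3
  · right
    refine ⟨?_, ?_, ?_⟩ <;> apply (mul_eq_zero.1 ?_).resolve_left z1
    · linear_combination (-v1) * b1 - w3 * a3 - w2 * a2
    · linear_combination w1 * a2 - v1 * b2
    · linear_combination w1 * a3 - v1 * b3

end Pool.Agent.R481.TT
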