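import Mathlib

/-! # Subsets of the grid without three translated triangles: definitions -/

set_option autoImplicit false

namespace Pool.Agent.R481.TT

/-- The grid `{1, ..., n} × {1, ..., n}` in `ℤ × ℤ`. -/
noncomputable def grid (n : ℕ) : Finset (ℤ × ℤ) := Finset.Icc (1 : ℤ) n ×ˢ Finset.Icc (1 : ℤ) n

/-- `A` contains three translated triangles: three translates, by pairwise distinct vectors, of
one set with exactly three elements. -/
def HasThree (A : Finset (ℤ × ℤ)) : Prop :=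
  ∃ X : Finset (ℤ × ℤ), X.card = 3 ∧ ∃ k₁ k₂ k₃ : ℤ × ℤ, k₁ ≠ k₂ ∧ k₁ ≠ k₃ ∧ k₂ ≠ k₃ ∧
    ∀ x ∈ X, x + k₁ ∈ A ∧ x + k₂ ∈ A ∧ x + k₃ ∈ A

open Classical in
/-- The maximal number of elements of a subset of the grid without three translated triangles. -/
noncomputable def F (n : ℕ) : ℕ :=
  ((grid n).powerset.filter fun A => ¬ HasThree A).sup Finset.card

theorem card_le_F (n : ℕ) (A : Finset (ℤ × ℤ)) (hA : A ⊆ grid n) (h : ¬ HasThree A) :
    A.card ≤ F n := by
  classical
  unfold F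
  exact Finset.le_sup (f := Finset.card)
    (Finset.mem_filter.2 ⟨Finset.mem_powerset.2 hA, h⟩)

theorem exists_F (n : ℕ) : ∃ A : Finset (ℤ × ℤ), A ⊆ grid n ∧ ¬ HasThree A ∧ A.card = F n := by
  classical
  have hne : ((grid n).powerset.filter fun A => ¬ HasThree A).Nonempty := by
    refine ⟨∅, Finset.mem_filter.2 ⟨Finset.mem_powerset.2 (Finset.empty_subset _), ?_⟩⟩
    rintro ⟨X, hX, k₁, k₂, k₃, -, -, -, h⟩
    obtain ⟨x, hx⟩ : X.Nonempty := Finset.card_pos.1 (by omega)
    exact absurd (h x hx).1 (Finset.notMem_empty _)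
  obtain ⟨A, hA, hA2⟩ := Finset.exists_mem_eq_sup _ hne Finset.card
  rw [Finset.mem_filter, Finset.mem_powerset] at hA
  refine ⟨A, hA.1, hA.2, ?_⟩
  unfold F
  rw [hA2]

theorem grid_card (n : ℕ) : (grid n).card = n ^ 2 := by
  unfold grid
  rw [Finset.card_product, Int.card_Icc]
  simp [sq]

end Pool.Agent.R481.TT
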