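import Pool.Agent.R481.TT.Alg

/-! # The lower bound -/

set_option autoImplicit false

namespace Pool.Agent.R481.TT

variable {p : ℕ} [Fact p.Prime]

/-- the exponent -/
def lf (r : ℕ) (q : ℤ × ℤ) : ℤ := q.1 + r * q.2

/-- the norm form -/
def nf (D : ZMod p) (q : ℤ × ℤ) : ZMod p := (q.1 : ZMod p) ^ 2 - D * (q.2 : ZMod p) ^ 2

theorem lf_add (r : ℕ) (x k : ℤ × ℤ) : lf r (x + k) = lf r x + lf r k := by
  unfold lf
  rw [Prod.fst_add, Prod.snd_add]
  ring

theorem sep (n r : ℕ) (hn : n ≤ r * p) (hr : r ^ 2 ≤ p - 1) (g : (ZMod p)ˣ)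
    (hg : orderOf g = p - 1) (x y : ℤ × ℤ) (h1 : |x.1 - y.1| < n) (h2 : |x.2 - y.2| < n)
    (hx : (x.1 : ZMod p) = y.1) (hy : (x.2 : ZMod p) = y.2)
    (hl : g ^ lf r x = g ^ lf r y) : x = y := by
  have hp1 : 1 ≤ p := (Fact.out : p.Prime).one_lt.le
  have hp0 : (0 : ℤ) < p := by exact_mod_cast hp1
  obtain ⟨u, hu⟩ := (ZMod.intCast_eq_intCast_iff_dvd_sub _ _ _).1 hx.symm
  obtain ⟨v, hv⟩ := (ZMod.intCast_eq_intCast_iff_dvd_sub _ _ _).1 hy.symm
  have hnr : (n : ℤ) ≤ r * p := by exact_mod_cast hn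
  have hu1 : |u| < r := by
    rw [hu, abs_mul, abs_of_pos hp0] at h1
    by_contra hcon
    push Not at hcon
    nlinarith
  have hv1 : |v| < r := by
    rw [hv, abs_mul, abs_of_pos hp0] at h2
    by_contra hcon
    push Not at hcon
    nlinarith
  have h3 : ((p - 1 : ℕ) : ℤ) ∣ lf r x - lf r y := by
    have := (zpow_eq_zpow_iff_modEq.1 hl).symm.dvd
    rwa [hg] at this
  have hpc : ((p - 1 : ℕ) : ℤ) = (p : ℤ) - 1 := by
    rw [Nat.cast_sub hp1]; simp
  have hr2 : ((r : ℤ)) ^ 2 ≤ (p : ℤ) - 1 := by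
    rw [← hpc]; exact_mod_cast hr
  rw [hpc] at h3
  have h4 : (p : ℤ) - 1 ∣ u + r * v := by
    have h5 : u + r * v = (lf r x - lf r y) - ((p : ℤ) - 1) * (u + r * v) := by
      unfold lf
      have : x.1 + r * x.2 - (y.1 + r * y.2) = (x.1 - y.1) + r * (x.2 - y.2) := by ring
      rw [this, hu, hv]
      ring
    rw [h5]
    exact dvd_sub h3 (dvd_mul_right _ _)
  have h6 : |u + r * v| < (p : ℤ) - 1 := by
    have h7 : |u + r * v| ≤ |u| + r * |v| := by
      refine (abs_add_le _ _).trans ?_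
      rw [abs_mul, abs_of_nonneg (show (0 : ℤ) ≤ r by positivity)]
    have h8 : (r : ℤ) * |v| ≤ r * (r - 1) := by
      apply mul_le_mul_of_nonneg_left _ (by positivity)
      omega
    nlinarith
  have h9 := Int.eq_zero_of_abs_lt_dvd h4 h6
  have hv0 : v = 0 := by
    by_contra hv0
    have h10 : 1 ≤ |v| := Int.one_le_abs hv0
    have h11 : u = -(r * v) := by linarith
    rw [h11, abs_neg, abs_mul, abs_of_nonneg (show (0 : ℤ) ≤ r by positivity)] at hu1
    nlinarith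
  have hu0 : u = 0 := by
    rw [hv0] at h9
    linarith
  rw [hu0, mul_zero] at hu
  rw [hv0, mul_zero] at hv
  exact Prod.ext (by linarith) (by linarith)

theorem dist_aux (n r : ℕ) (hn : n ≤ r * p) (hr : r ^ 2 ≤ p - 1) (g : (ZMod p)ˣ)
    (hg : orderOf g = p - 1) (D c : ZMod p) (hc : c ≠ 0) (A : Finset (ℤ × ℤ))
    (hA : A ⊆ grid n)
    (hAc : ∀ q ∈ A, nf D q = c * ((g ^ lf r q : (ZMod p)ˣ) : ZMod p))
    (x x' k : ℤ × ℤ) (hx : x + k ∈ A) (hx' : x' + k ∈ A) (hne : x ≠ x') :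
    ¬ ((x.1 : ZMod p) = x'.1 ∧ (x.2 : ZMod p) = x'.2) := by
  rintro ⟨e1, e2⟩
  apply hne
  have g1 := hA hx
  have g2 := hA hx'
  unfold grid at g1 g2
  rw [Finset.mem_product, Finset.mem_Icc, Finset.mem_Icc, Prod.fst_add, Prod.snd_add] at g1 g2
  have m1 := hAc _ hx
  have m2 := hAc _ hx'
  have m3 : nf D (x + k) = nf D (x' + k) := by
    unfold nf
    rw [Prod.fst_add, Prod.snd_add, Prod.fst_add, Prod.snd_add]
    push_cast
    rw [e1, e2]
  rw [m1, m2] at m3
  have m4 := mul_left_cancel₀ hc m3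
  have m5 : g ^ lf r (x + k) = g ^ lf r (x' + k) := Units.ext m4
  rw [lf_add, lf_add, zpow_add, zpow_add] at m5
  have m6 := mul_right_cancel m5
  refine sep n r hn hr g hg x x' ?_ ?_ e1 e2 m6
  · rw [abs_lt]; constructor <;> omega
  · rw [abs_lt]; constructor <;> omega

theorem avoid (hp2 : p ≠ 2) (n r : ℕ) (hn : n ≤ r * p) (hr : r ^ 2 ≤ p - 1) (g : (ZMod p)ˣ)
    (hg : orderOf g = p - 1) (D : ZMod p)
    (hD : ∀ u v : ZMod p, u ^ 2 - D * v ^ 2 = 0 → u = 0 ∧ v = 0) (c : ZMod p) (hc : c ≠ 0)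
    (A : Finset (ℤ × ℤ)) (hA : A ⊆ grid n)
    (hAc : ∀ q ∈ A, nf D q = c * ((g ^ lf r q : (ZMod p)ˣ) : ZMod p)) : ¬ HasThree A := by
  rintro ⟨X, hX, k1, k2, k3, hk12, hk13, hk23, hall⟩
  obtain ⟨x1, x2, x3, hx12, hx13, hx23, rfl⟩ := Finset.card_eq_three.1 hX
  obtain ⟨m11, m12, m13⟩ := hall x1 (by simp)
  obtain ⟨m21, m22, m23⟩ := hall x2 (by simp)
  obtain ⟨m31, m32, m33⟩ := hall x3 (by simp)
  have two : (2 : ZMod p) ≠ 0 := by
    intro h
    have h2 : ((2 : ℕ) : ZMod p) = 0 := by exact_mod_cast h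
    rw [ZMod.natCast_eq_zero_iff] at h2
    exact hp2 ((Nat.prime_dvd_prime_iff_eq Fact.out Nat.prime_two).1 h2)
  have D0 : D ≠ 0 := by
    intro h
    have := (hD 0 1 (by rw [h]; ring)).2
    exact one_ne_zero this
  have twoD : 2 * D ≠ 0 := mul_ne_zero two D0
  -- the equations
  have eqn : ∀ x k : ℤ × ℤ, x + k ∈ A →
      ((x.1 : ZMod p) + k.1) ^ 2 - D * ((x.2 : ZMod p) + k.2) ^ 2 =
        ((g ^ lf r x : (ZMod p)ˣ) : ZMod p) * (c * ((g ^ lf r k : (ZMod p)ˣ) : ZMod p)) := by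
    intro x k h
    have h1 := hAc _ h
    unfold nf at h1
    rw [lf_add, zpow_add, Units.val_mul, Prod.fst_add, Prod.snd_add] at h1
    push_cast at h1 ⊢
    rw [h1]
    ring
  have dx : ∀ x x' k : ℤ × ℤ, x + k ∈ A → x' + k ∈ A → x ≠ x' →
      ¬ ((x.1 : ZMod p) = x'.1 ∧ (x.2 : ZMod p) = x'.2) := fun x x' k h1 h2 h3 =>
    dist_aux n r hn hr g hg D c hc A hA hAc x x' k h1 h2 h3
  have H11 := eqn x1 k1 m11
  have H12 := eqn x1 k2 m12
  have H13 := eqn x1 k3 m13
  have H21 := eqn x2 k1 m21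
  have H22 := eqn x2 k2 m22
  have H23 := eqn x2 k3 m23
  have H31 := eqn x3 k1 m31
  have H32 := eqn x3 k2 m32
  have H33 := eqn x3 k3 m33
  have ex12 := dx x1 x2 k1 m11 m21 hx12
  have ex13 := dx x1 x3 k1 m11 m31 hx13
  have ex23 := dx x2 x3 k1 m21 m31 hx23
  have ek12 := dx k1 k2 x1 (by rwa [add_comm]) (by rwa [add_comm]) hk12
  have ek13 := dx k1 k3 x1 (by rwa [add_comm]) (by rwa [add_comm]) hk13
  have ek23 := dx k2 k3 x1 (by rwa [add_comm]) (by rwa [add_comm]) hk23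
  generalize ((g ^ lf r x1 : (ZMod p)ˣ) : ZMod p) = a1 at *
  generalize ((g ^ lf r x2 : (ZMod p)ˣ) : ZMod p) = a2 at *
  generalize ((g ^ lf r x3 : (ZMod p)ˣ) : ZMod p) = a3 at *
  generalize c * ((g ^ lf r k1 : (ZMod p)ˣ) : ZMod p) = b1 at *
  generalize c * ((g ^ lf r k2 : (ZMod p)ˣ) : ZMod p) = b2 at *
  generalize c * ((g ^ lf r k3 : (ZMod p)ˣ) : ZMod p) = b3 at *
  generalize (x1.1 : ZMod p) = X1 at *
  generalize (x2.1 : ZMod p) = X2 at *
  generalize (x3.1 : ZMod p) = X3 at *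
  generalize (x1.2 : ZMod p) = Y1 at *
  generalize (x2.2 : ZMod p) = Y2 at *
  generalize (x3.2 : ZMod p) = Y3 at *
  generalize (k1.1 : ZMod p) = S1 at *
  generalize (k2.1 : ZMod p) = S2 at *
  generalize (k3.1 : ZMod p) = S3 at *
  generalize (k1.2 : ZMod p) = T1 at *
  generalize (k2.2 : ZMod p) = T2 at *
  generalize (k3.2 : ZMod p) = T3 at *
  have cr := cross (2 * (X2 - X1)) (-(2 * D) * (Y2 - Y1)) (-(a2 - a1))
    (2 * (X3 - X1)) (-(2 * D) * (Y3 - Y1)) (-(a3 - a1))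
    (S2 - S1) (T2 - T1) (b2 - b1) (S3 - S1) (T3 - T1) (b3 - b1)
    (by linear_combination H22 - H12 - H21 + H11)
    (by linear_combination H23 - H13 - H21 + H11)
    (by linear_combination H32 - H12 - H31 + H11)
    (by linear_combination H33 - H13 - H31 + H11)
  rcases cr with ⟨z1, z2, z3⟩ | ⟨z1, z2, z3⟩
  · refine line D hD X1 Y1 X2 Y2 X3 Y3 a1 a2 a3 S1 T1 b1 H11 H21 H31 ?_ ?_ ?_ ex12 ex13 ex23
    · apply mul_left_cancel₀ twoD
      linear_combination z1
    · apply mul_left_cancel₀ two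
      linear_combination z2
    · apply mul_left_cancel₀ (mul_ne_zero two twoD)
      linear_combination -z3
  · refine line D hD S1 T1 S2 T2 S3 T3 b1 b2 b3 X1 Y1 a1 (by linear_combination H11)
      (by linear_combination H12) (by linear_combination H13) ?_ ?_ ?_ ek12 ek13 ek23
    · linear_combination z1
    · linear_combination -z2
    · linear_combination z3

/-- the points of the grid with both coordinates divisible by `p` -/
theorem card_zero (n r : ℕ) (hn : n ≤ r * p) :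
    ((grid n).filter fun q => (q.1 : ZMod p) = 0 ∧ (q.2 : ZMod p) = 0).card ≤ r ^ 2 := by
  have hp0 : (0 : ℤ) < p := by exact_mod_cast (Fact.out : p.Prime).pos
  have hsub : ((grid n).filter fun q => (q.1 : ZMod p) = 0 ∧ (q.2 : ZMod p) = 0) ⊆
      (grid r).image (fun q : ℤ × ℤ => ((p : ℤ) * q.1, (p : ℤ) * q.2)) := by
    intro q hq
    rw [Finset.mem_filter] at hq
    obtain ⟨hq1, h1, h2⟩ := hq
    rw [ZMod.intCast_zmod_eq_zero_iff_dvd] at h1 h2
    obtain ⟨u, hu⟩ := h1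
    obtain ⟨v, hv⟩ := h2
    unfold grid at hq1
    rw [Finset.mem_product, Finset.mem_Icc, Finset.mem_Icc] at hq1
    have hnr : (n : ℤ) ≤ r * p := by exact_mod_cast hn
    rw [Finset.mem_image]
    refine ⟨(u, v), ?_, Prod.ext hu.symm hv.symm⟩
    unfold grid
    rw [Finset.mem_product, Finset.mem_Icc, Finset.mem_Icc]
    simp only
    obtain ⟨⟨l1, l2⟩, l3, l4⟩ := hq1
    rw [hu] at l1 l2
    rw [hv] at l3 l4
    refine ⟨⟨?_, ?_⟩, ?_, ?_⟩
    · by_contra hcon
      push Not at hcon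
      nlinarith
    · by_contra hcon
      push Not at hcon
      nlinarith
    · by_contra hcon
      push Not at hcon
      nlinarith
    · by_contra hcon
      push Not at hcon
      nlinarith
  exact (Finset.card_le_card hsub).trans (Finset.card_image_le.trans (grid_card r).le)

/-- THE LOWER BOUND -/
theorem lower (hp2 : p ≠ 2) (n r : ℕ) (hn : n ≤ r * p) (hr : r ^ 2 ≤ p - 1) :
    n ^ 2 ≤ F n * (p - 1) + r ^ 2 := by
  classical
  have hp : p.Prime := Fact.out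
  obtain ⟨g, hg⟩ := IsCyclic.exists_ofOrder_eq_natCard (α := (ZMod p)ˣ)
  have hg' : orderOf g = p - 1 := by
    rw [hg, Nat.card_eq_fintype_card, ZMod.card_units]
  obtain ⟨D, hDs⟩ := FiniteField.exists_nonsquare (F := ZMod p) (by
    rw [ZMod.ringChar_zmod_n]; exact hp2)
  have hD : ∀ u v : ZMod p, u ^ 2 - D * v ^ 2 = 0 → u = 0 ∧ v = 0 := by
    intro u v h
    have hv : v = 0 := by
      by_contra hv
      apply hDs
      refine ⟨u / v, ?_⟩
      field_simp
      linear_combination -h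
    rw [hv] at h
    refine ⟨?_, hv⟩
    have : u ^ 2 = 0 := by linear_combination h
    exact pow_eq_zero_iff (two_ne_zero) |>.1 this
  obtain ⟨S, hS⟩ : ∃ S, S = (grid n).filter
    (fun q : ℤ × ℤ => ¬ ((q.1 : ZMod p) = 0 ∧ (q.2 : ZMod p) = 0)) := ⟨_, rfl⟩
  have h1 : S.card ≤ F n * ((Finset.univ : Finset (ZMod p)).erase 0).card := by
    refine Finset.card_le_mul_card_image_of_maps_to (f := fun q : ℤ × ℤ =>
      nf D q * ((g ^ (-lf r q) : (ZMod p)ˣ) : ZMod p)) ?_ (F n) ?_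
    · intro q hq
      rw [hS, Finset.mem_filter] at hq
      rw [Finset.mem_erase]
      refine ⟨mul_ne_zero ?_ (Units.ne_zero _), Finset.mem_univ _⟩
      intro h
      exact hq.2 (hD _ _ h)
    · intro c hc
      rw [Finset.mem_erase] at hc
      apply card_le_F
      · intro q hq
        rw [Finset.mem_filter, hS, Finset.mem_filter] at hq
        exact hq.1.1
      · apply avoid hp2 n r hn hr g hg' D hD c hc.1
        · intro q hq
          rw [Finset.mem_filter, hS, Finset.mem_filter] at hq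
          exact hq.1.1
        · intro q hq
          rw [Finset.mem_filter] at hq
          rw [← hq.2, mul_assoc, ← Units.val_mul, ← zpow_add]
          simp
  rw [Finset.card_erase_of_mem (Finset.mem_univ _), Finset.card_univ, ZMod.card] at h1
  have h2 := card_zero (p := p) n r hn
  have h3 := Finset.card_filter_add_card_filter_not (s := grid n)
    (fun q : ℤ × ℤ => (q.1 : ZMod p) = 0 ∧ (q.2 : ZMod p) = 0)
  rw [grid_card] at h3
  rw [← h3]
  rw [hS] at h1
  omega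

end Pool.Agent.R481.TT
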