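import Pool.Agent.R481.TT.Defs

/-! # The upper bound -/

set_option autoImplicit false

namespace Pool.Agent.R481.TT

open Finset

theorem cube_le (c : ℕ) : (c - 2) ^ 3 ≤ 6 * c.choose 3 := by
  have h1 := Nat.pow_sub_le_descFactorial c 3
  rw [Nat.descFactorial_eq_factorial_mul_choose] at h1
  have h2 : c + 1 - 3 = c - 2 := by omega
  rw [h2] at h1
  simpa [Nat.factorial] using h1

theorem choose_le (d : ℕ) : 6 * d.choose 3 ≤ d ^ 3 := by
  have h1 := Nat.descFactorial_le_pow d 3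
  rw [Nat.descFactorial_eq_factorial_mul_choose] at h1
  simpa [Nat.factorial] using h1

/-- a window with many points of `A` -/
theorem window (n w : ℕ) (A : Finset (ℤ × ℤ)) (hA : A ⊆ grid n) (hnw : 0 < n + w) :
    ∃ t : ℤ × ℤ, w ^ 2 * A.card ≤ (n + w) ^ 2 * (A.filter fun a => a - t ∈ grid w).card := by
  classical
  obtain ⟨T, hT⟩ : ∃ T : Finset (ℤ × ℤ), T = Finset.Icc (1 - (w : ℤ)) n ×ˢ
    Finset.Icc (1 - (w : ℤ)) n := ⟨_, rfl⟩
  have hTc : T.card = (n + w) ^ 2 := by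
    rw [hT, Finset.card_product, Int.card_Icc]
    have : ((n : ℤ) + 1 - (1 - w)).toNat = n + w := by omega
    rw [this]; ring
  have hTn : T.Nonempty := by
    rw [← Finset.card_pos, hTc]
    positivity
  have hdouble : ∑ t ∈ T, (A.filter fun a => a - t ∈ grid w).card = A.card * w ^ 2 := by
    simp only [Finset.card_filter]
    rw [Finset.sum_comm]
    have : ∀ a ∈ A, ∑ t ∈ T, (if a - t ∈ grid w then 1 else 0) = w ^ 2 := by
      intro a ha
      rw [← Finset.card_filter, ← grid_card w]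
      refine Finset.card_bij' (fun t _ => a - t) (fun s _ => a - s) ?_ ?_ ?_ ?_
      · intro t ht
        exact (Finset.mem_filter.1 ht).2
      · intro s hs
        rw [Finset.mem_filter]
        refine ⟨?_, by rwa [sub_sub_cancel]⟩
        have ha' := hA ha
        unfold grid at ha' hs
        rw [Finset.mem_product, Finset.mem_Icc, Finset.mem_Icc] at ha' hs
        rw [hT, Finset.mem_product, Finset.mem_Icc, Finset.mem_Icc, Prod.fst_sub, Prod.snd_sub]
        omega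
      · intro t _
        exact sub_sub_cancel _ _
      · intro s _
        exact sub_sub_cancel _ _
    rw [Finset.sum_congr rfl this, Finset.sum_const, smul_eq_mul]
  obtain ⟨t, _, ht⟩ := Finset.exists_le_of_sum_le (s := T) (f := fun _ => w ^ 2 * A.card)
    (g := fun t => (n + w) ^ 2 * (A.filter fun a => a - t ∈ grid w).card) hTn (by
      have e1 : ∑ t ∈ T, (n + w) ^ 2 * (A.filter fun a => a - t ∈ grid w).card =
          (n + w) ^ 2 * (A.card * w ^ 2) := by rw [← Finset.mul_sum, hdouble]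
      rw [e1, Finset.sum_const, smul_eq_mul, hTc]
      exact le_of_eq (by ring))
  exact ⟨t, ht⟩

/-- the counting inequality inside a window -/
theorem window_bound (n w : ℕ) (A : Finset (ℤ × ℤ)) (hA : A ⊆ grid n) (hno : ¬ HasThree A)
    (t : ℤ × ℤ) (d : ℕ) (hd : d = (A.filter fun a => a - t ∈ grid w).card) :
    (d : ℝ) * A.card ≤ d + 2 * ((n : ℝ) + w) ^ 2 + ((n : ℝ) + w) ^ (4 / 3 : ℝ) * d := by
  classical
  obtain ⟨B, hB⟩ : ∃ B : Finset (ℤ × ℤ), B = A.filter fun a => a - t ∈ grid w := ⟨_, rfl⟩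
  rw [← hB] at hd
  obtain ⟨K, hK⟩ : ∃ K : Finset (ℤ × ℤ), K = Finset.Icc (1 - t.1 - (w : ℤ)) (n - t.1) ×ˢ
    Finset.Icc (1 - t.2 - (w : ℤ)) (n - t.2) := ⟨_, rfl⟩
  have hKc : K.card = (n + w) ^ 2 := by
    rw [hK, Finset.card_product, Int.card_Icc, Int.card_Icc]
    have h1 : ((n : ℤ) - t.1 + 1 - (1 - t.1 - w)).toNat = n + w := by omega
    have h2 : ((n : ℤ) - t.2 + 1 - (1 - t.2 - w)).toNat = n + w := by omega
    rw [h1, h2]; ring
  obtain ⟨c, hc⟩ : ∃ c : ℤ × ℤ → ℕ, c = fun k => (B.filter fun b => b + k ∈ A).card := ⟨_, rfl⟩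
  have hBA : B ⊆ A := by rw [hB]; exact Finset.filter_subset _ _
  -- the number of pairs
  have hpairs : ∑ k ∈ K, c k = d * A.card := by
    rw [hc]
    simp only [Finset.card_filter]
    rw [Finset.sum_comm]
    have : ∀ b ∈ B, ∑ k ∈ K, (if b + k ∈ A then 1 else 0) = A.card := by
      intro b hb
      rw [← Finset.card_filter]
      refine Finset.card_bij' (fun k _ => b + k) (fun a _ => a - b) ?_ ?_ ?_ ?_
      · intro k hk
        exact (Finset.mem_filter.1 hk).2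
      · intro a ha
        rw [Finset.mem_filter]
        refine ⟨?_, by rwa [add_sub_cancel]⟩
        have ha' := hA ha
        rw [hB, Finset.mem_filter] at hb
        have hb' := hb.2
        unfold grid at ha' hb'
        rw [Finset.mem_product, Finset.mem_Icc, Finset.mem_Icc] at ha' hb'
        rw [Prod.fst_sub, Prod.snd_sub] at hb'
        rw [hK, Finset.mem_product, Finset.mem_Icc, Finset.mem_Icc, Prod.fst_sub, Prod.snd_sub]
        omega
      · intro k _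
        exact add_sub_cancel_left _ _
      · intro a _
        exact add_sub_cancel _ _
    rw [Finset.sum_congr rfl this, Finset.sum_const, smul_eq_mul, hd]
  have hc0 : c 0 ≤ d := by
    rw [hc, hd]
    exact Finset.card_filter_le _ _
  obtain ⟨K', hK'⟩ : ∃ K' : Finset (ℤ × ℤ), K' = K.erase 0 := ⟨_, rfl⟩
  have hpairs' : d * A.card ≤ ∑ k ∈ K', c k + d := by
    rw [← hpairs, hK']
    by_cases h0 : (0 : ℤ × ℤ) ∈ K
    · rw [← Finset.sum_erase_add _ _ h0]
      omega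
    · rw [Finset.erase_eq_of_notMem h0]
      omega
  -- triples
  have htriples : ∑ k ∈ K', (c k).choose 3 ≤ d.choose 3 := by
    have h1 : ∀ k, (c k).choose 3 = (Finset.powersetCard 3 (B.filter fun b => b + k ∈ A)).card := by
      intro k
      rw [Finset.card_powersetCard, hc]
    simp only [h1]
    rw [← Finset.card_biUnion, hd, ← Finset.card_powersetCard]
    · apply Finset.card_le_card
      intro X hX
      rw [Finset.mem_biUnion] at hX
      obtain ⟨k, _, hX⟩ := hX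
      rw [Finset.mem_powersetCard] at hX ⊢
      exact ⟨hX.1.trans (Finset.filter_subset _ _), hX.2⟩
    · intro k hk k' hk' hne
      rw [hK'] at hk hk'
      have e1 : k ≠ 0 := (Finset.mem_erase.1 (Finset.mem_coe.1 hk)).1
      have e2 : k' ≠ 0 := (Finset.mem_erase.1 (Finset.mem_coe.1 hk')).1
      change Disjoint _ _
      rw [Finset.disjoint_left]
      intro X hX hX'
      rw [Finset.mem_powersetCard] at hX hX'
      apply hno
      refine ⟨X, hX.2, 0, k, k', e1.symm, e2.symm, hne, fun x hx => ?_⟩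
      have h3 := Finset.mem_filter.1 (hX.1 hx)
      have h4 := Finset.mem_filter.1 (hX'.1 hx)
      exact ⟨by rw [add_zero]; exact hBA h3.1, h3.2, h4.2⟩
  have hcubes : ∑ k ∈ K', (c k - 2) ^ 3 ≤ d ^ 3 := by
    calc ∑ k ∈ K', (c k - 2) ^ 3 ≤ ∑ k ∈ K', 6 * (c k).choose 3 :=
          Finset.sum_le_sum fun k _ => cube_le _
      _ = 6 * ∑ k ∈ K', (c k).choose 3 := (Finset.mul_sum _ _ _).symm
      _ ≤ 6 * d.choose 3 := Nat.mul_le_mul_left _ htriples
      _ ≤ d ^ 3 := choose_le d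
  have hK'c : K'.card ≤ (n + w) ^ 2 := by
    rw [hK', ← hKc]
    exact Finset.card_erase_le
  obtain ⟨S, hS⟩ : ∃ S : ℕ, S = ∑ k ∈ K', (c k - 2) := ⟨_, rfl⟩
  have hS1 : ∑ k ∈ K', c k ≤ S + 2 * K'.card := by
    have : 2 * K'.card = ∑ _k ∈ K', 2 := by
      rw [Finset.sum_const, smul_eq_mul, mul_comm]
    rw [hS, this, ← Finset.sum_add_distrib]
    exact Finset.sum_le_sum fun k _ => by omega
  have hS3 : S ^ 3 ≤ ((n + w) ^ 2) ^ 2 * d ^ 3 := by
    have h1 := pow_sum_le_card_mul_sum_pow (s := K') (f := fun k => (c k - 2))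
      (fun k _ => Nat.zero_le _) 2
    rw [← hS] at h1
    simp only [Nat.cast_id] at h1
    refine h1.trans ?_
    exact Nat.mul_le_mul (Nat.pow_le_pow_left hK'c 2) hcubes
  have hS4 : (S : ℝ) ≤ ((n : ℝ) + w) ^ (4 / 3 : ℝ) * d := by
    have h0 : (0 : ℝ) ≤ (n : ℝ) + w := by positivity
    have h1 : (((n : ℝ) + w) ^ (4 / 3 : ℝ)) ^ 3 = ((n : ℝ) + w) ^ 4 := by
      rw [← Real.rpow_natCast (((n : ℝ) + w) ^ (4 / 3 : ℝ)) 3, ← Real.rpow_mul h0]
      norm_num
    refine le_of_pow_le_pow_left₀ (n := 3) (by norm_num) (by positivity) ?_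
    rw [mul_pow, h1]
    have h2 : ((S : ℝ)) ^ 3 ≤ (((n : ℝ) + w) ^ 2) ^ 2 * d ^ 3 := by exact_mod_cast hS3
    calc ((S : ℝ)) ^ 3 ≤ (((n : ℝ) + w) ^ 2) ^ 2 * d ^ 3 := h2
      _ = _ := by ring
  have h5 : d * A.card ≤ S + 2 * (n + w) ^ 2 + d := by
    have : 2 * K'.card ≤ 2 * (n + w) ^ 2 := Nat.mul_le_mul_left _ hK'c
    omega
  have h6 : (d : ℝ) * A.card ≤ S + 2 * ((n : ℝ) + w) ^ 2 + d := by exact_mod_cast h5
  linarith

/-- THE UPPER BOUND -/
theorem upper (n w : ℕ) (hn : 1 ≤ n) (hw : 1 ≤ w) :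
    (F n : ℝ) ≤ 1 + ((n : ℝ) + w) ^ (4 / 3 : ℝ) +
      2 * ((n : ℝ) + w) ^ 4 / ((w : ℝ) ^ 2 * (n : ℝ) ^ (4 / 3 : ℝ)) := by
  have hn0 : (0 : ℝ) < n := by exact_mod_cast hn
  have hw0 : (0 : ℝ) < w := by exact_mod_cast hw
  have hng : (0 : ℝ) < (n : ℝ) ^ (4 / 3 : ℝ) := Real.rpow_pos_of_pos hn0 _
  obtain ⟨A, hA, hno, hcard⟩ := exists_F n
  have hlast : 0 < 2 * ((n : ℝ) + w) ^ 4 / ((w : ℝ) ^ 2 * (n : ℝ) ^ (4 / 3 : ℝ)) := by positivity
  by_cases hsmall : (F n : ℝ) ≤ (n : ℝ) ^ (4 / 3 : ℝ)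
  · have h1 : (n : ℝ) ^ (4 / 3 : ℝ) ≤ ((n : ℝ) + w) ^ (4 / 3 : ℝ) :=
      Real.rpow_le_rpow hn0.le (by linarith) (by norm_num)
    linarith
  push Not at hsmall
  obtain ⟨t, ht⟩ := window n w A hA (by omega)
  obtain ⟨d, hd⟩ : ∃ d, d = (A.filter fun a => a - t ∈ grid w).card := ⟨_, rfl⟩
  have hb := window_bound n w A hA hno t d hd
  rw [← hd, hcard] at ht
  rw [hcard] at hb
  have ht' : (w : ℝ) ^ 2 * F n ≤ ((n : ℝ) + w) ^ 2 * d := by exact_mod_cast ht
  have hM : (0 : ℝ) < ((n : ℝ) + w) ^ 2 := by positivity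
  have hd0 : (0 : ℝ) < d := by
    by_contra hcon
    have : (d : ℝ) = 0 := le_antisymm (not_lt.1 hcon) (by positivity)
    rw [this, mul_zero] at ht'
    have : (0 : ℝ) < (w : ℝ) ^ 2 * F n := by
      have : (0 : ℝ) < F n := lt_trans hng hsmall
      positivity
    linarith
  have h3 : (w : ℝ) ^ 2 * (n : ℝ) ^ (4 / 3 : ℝ) ≤ ((n : ℝ) + w) ^ 2 * d :=
    (mul_le_mul_of_nonneg_left hsmall.le (by positivity)).trans ht'
  have h4 : (F n : ℝ) ≤ 1 + ((n : ℝ) + w) ^ (4 / 3 : ℝ) + 2 * ((n : ℝ) + w) ^ 2 / d := by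
    have h5 : (F n : ℝ) = (d * F n) / d := by field_simp
    have h6 : 1 + ((n : ℝ) + w) ^ (4 / 3 : ℝ) + 2 * ((n : ℝ) + w) ^ 2 / d =
        (d + 2 * ((n : ℝ) + w) ^ 2 + ((n : ℝ) + w) ^ (4 / 3 : ℝ) * d) / d := by
      field_simp
      ring
    rw [h5, h6]
    exact div_le_div_of_nonneg_right hb hd0.le
  have h7 : 2 * ((n : ℝ) + w) ^ 2 / d ≤
      2 * ((n : ℝ) + w) ^ 4 / ((w : ℝ) ^ 2 * (n : ℝ) ^ (4 / 3 : ℝ)) := by
    rw [div_le_div_iff₀ hd0 (by positivity)]
    calc 2 * ((n : ℝ) + w) ^ 2 * ((w : ℝ) ^ 2 * (n : ℝ) ^ (4 / 3 : ℝ))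
        ≤ 2 * ((n : ℝ) + w) ^ 2 * (((n : ℝ) + w) ^ 2 * d) :=
          mul_le_mul_of_nonneg_left h3 (by positivity)
      _ = _ := by ring
  linarith

end Pool.Agent.R481.TT
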